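import Pool.Agent.H37.CTT.Stmts
import Pool.Agent.H63.CTT.SC8

/-!
# Board `ctt`: row SC9
-/

set_option autoImplicit false

namespace Pool.CND

open Finset Polynomial Matrix

theorem sc9_thm : S_SC9 := by
  intro p k F L _ _ _ _ _ _ f q t D X Z P a hp hp2 hchar hf hq hF hR hO hZ ha
  classical
  have hcL : CharP L p := charP_of_injective_algebraMap (algebraMap k L).injective p
  have hfp : Fact p.Prime := ⟨hp⟩
  have hq2 : 2 ≤ q := by
    rw [hq]
    calc 2 ≤ p := hp.two_le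
      _ = p ^ 1 := (pow_one p).symm
      _ ≤ p ^ f := Nat.pow_le_pow_right hp.pos hf
  have hfin : Finite F := by
    apply Nat.finite_of_card_ne_zero
    rw [hF]
    omega
  have hft := Fintype.ofFinite F
  have hFq : ∀ c : F, c ^ q = c := by
    intro c
    rw [← hF, Nat.card_eq_fintype_card]
    exact FiniteField.pow_card c
  obtain ⟨hD0, hX0, hX1, hz0, hz1, hz2⟩ :=
    sc8_thm p k F L f q t 1 t D X Z hp hchar hf hq hF hR hZ
  have ht0 : t ≠ 0 := by
    intro h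
    have h1 := hR.tr
    rw [h] at h1
    exact h1 isAlgebraic_zero
  -- the small roots
  have hsm : ∀ c0 c1 : F, (c0 ≠ 0 ∨ c1 ≠ 0) → cst k F L c0 * X 0 + cst k F L c1 * X 1 ≠ 0 ∧
      ((q : ℤ) ^ 2 - 1) * P.ord (cst k F L c0 * X 0 + cst k F L c1 * X 1) = -P.ord t := by
    intro c0 c1 hc
    have e1 : ∑ i, cst k F L ((![c0, c1, 0, 0] : Fin 4 → F) i) * X i =
        cst k F L c0 * X 0 + cst k F L c1 * X 1 := by
      rw [Fin.sum_univ_four]
      simp [cst]
    constructor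
    · intro h0
      rw [← e1] at h0
      have h1 := hR.ind _ h0
      rcases hc with hc | hc
      · exact hc (congrFun h1 0)
      · exact hc (congrFun h1 1)
    · rw [← e1]
      exact hO.small _ rfl rfl hc
  have hq2z : (2 : ℤ) ≤ q := by exact_mod_cast hq2
  have hQ0 : (0 : ℤ) < (q : ℤ) ^ 2 - 1 := by nlinarith
  obtain ⟨o, ho⟩ : ∃ o, o = P.ord (X 0) := ⟨_, rfl⟩
  have hot : ((q : ℤ) ^ 2 - 1) * o = -P.ord t := by
    have h1 := (hsm 1 0 (Or.inl one_ne_zero)).2
    simp only [cst, map_one, map_zero, one_mul, zero_mul, add_zero] at h1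
    rw [ho]
    exact h1
  have ho1 : 1 ≤ o := by
    by_contra hc
    have h1 : ((q : ℤ) ^ 2 - 1) * o ≤ 0 := mul_nonpos_of_nonneg_of_nonpos hQ0.le (by omega)
    have h2 := hO.neg
    omega
  have hoX1 : P.ord (X 1) = o := by
    have h1 := (hsm 0 1 (Or.inr one_ne_zero)).2
    simp only [cst, map_one, map_zero, one_mul, zero_mul, zero_add] at h1
    rw [← hot] at h1
    exact mul_left_cancel₀ hQ0.ne' h1
  obtain ⟨v, hv⟩ : ∃ v, v = X 1 / X 0 := ⟨_, rfl⟩
  have hv0 : v ≠ 0 := by rw [hv]; exact div_ne_zero hX1 hX0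
  have hX1v : X 1 = v * X 0 := by rw [hv, div_mul_cancel₀ _ hX0]
  have hov : P.ord v = 0 := by rw [hv, P.ord_div hX1 hX0, hoX1, ← ho]; ring
  have hvc : ∀ c : F, v - cst k F L c ≠ 0 ∧ P.ord (v - cst k F L c) = 0 := by
    intro c
    obtain ⟨h1, h2⟩ := hsm (-c) 1 (Or.inr one_ne_zero)
    have e1 : v - cst k F L c = (cst k F L (-c) * X 0 + cst k F L 1 * X 1) / X 0 := by
      rw [hv]
      field_simp
      simp only [cst, map_neg, map_one]
      ring
    have h3 : P.ord (cst k F L (-c) * X 0 + cst k F L 1 * X 1) = o := by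
      rw [← hot] at h2
      exact mul_left_cancel₀ hQ0.ne' h2
    rw [e1]
    refine ⟨div_ne_zero h1 hX0, ?_⟩
    rw [P.ord_div h1 hX0, h3, ← ho]
    ring
  obtain ⟨μ, hμ⟩ : ∃ μ : k, P.Ge (v - algebraMap k L μ) 1 := by
    obtain ⟨c, hc | hc⟩ := P.residue v hv0 (by rw [hov])
    · exact ⟨c, Or.inl (by rw [hc, sub_self])⟩
    · exact ⟨c, Or.inr (by omega)⟩
  have hμF : ∀ c : F, algebraMap F k c ≠ μ := by
    intro c hc
    obtain ⟨h1, h2⟩ := hvc c
    rw [← hc] at hμ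
    have h3 := (P.ge_iff h1 _).1 hμ
    have h4 : P.ord (v - cst k F L c) = P.ord (v - algebraMap k L (algebraMap F k c)) := rfl
    omega
  have hμq : μ ^ q ≠ μ := by
    intro h
    obtain ⟨c, hc⟩ := SC8a.const_of_pow (k := k) (F := F) (L := L) (q := q) (by omega) hF
      (algebraMap k L μ) (by rw [← map_pow, h])
    exact hμF c ((algebraMap k L).injective hc)
  obtain ⟨w, hw⟩ : ∃ w, w = v - algebraMap k L μ := ⟨_, rfl⟩
  rw [← hw] at hμ
  have hvw : v = w + algebraMap k L μ := by rw [hw]; ring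
  -- powers
  have hgp : ∀ (y : L) (e : ℤ) (n : ℕ), 0 ≤ e → 1 ≤ n → P.Ge y e → P.Ge (y ^ n) (n * e) := by
    intro y e n he hn hy
    rcases hy with hy | hy
    · left
      rw [hy, zero_pow (by omega)]
    · by_cases h0 : y = 0
      · left
        rw [h0, zero_pow (by omega)]
      · right
        rw [P.ord_pow h0]
        exact mul_le_mul_of_nonneg_left hy (by positivity)
  have hfrob : ∀ (n : ℕ), v ^ q ^ n - v = algebraMap k L (μ ^ q ^ n - μ) + (w ^ q ^ n - w) := by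
    intro n
    have e1 : q ^ n = p ^ (f * n) := by rw [hq, ← pow_mul]
    rw [hvw, e1, add_pow_char_pow, map_sub, map_pow]
    ring
  have hwge : ∀ n : ℕ, P.Ge (w ^ q ^ n - w) 1 := by
    intro n
    refine P.ge_sub ?_ hμ
    have h1 := hgp w 1 (q ^ n) (by norm_num) (Nat.one_le_pow _ _ (by omega)) hμ
    refine P.ge_mono h1 ?_
    have h2 : 1 ≤ q ^ n := Nat.one_le_pow _ _ (by omega)
    have h3 : (1 : ℤ) ≤ ((q ^ n : ℕ) : ℤ) := by exact_mod_cast h2
    omega
  have hcon : ∀ n : ℕ, μ ^ q ^ n ≠ μ → v ^ q ^ n - v ≠ 0 ∧ P.ord (v ^ q ^ n - v) = 0 := by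
    intro n hn
    have h0 : μ ^ q ^ n - μ ≠ 0 := sub_ne_zero.2 hn
    have h1 : algebraMap k L (μ ^ q ^ n - μ) ≠ 0 := by
      intro h
      exact h0 ((map_eq_zero _).1 h)
    have h2 := P.ord_const _ h0
    have h3 := P.ord_add_of_lt h1 (y := w ^ q ^ n - w) (by rw [h2]; exact hwge n)
    rw [hfrob n]
    exact ⟨h3.1, by rw [h3.2, h2]⟩
  have hA : v ^ q - v ≠ 0 ∧ P.ord (v ^ q - v) = 0 := by
    have h1 := hcon 1 (by rw [pow_one]; exact hμq)
    rw [pow_one] at h1
    exact h1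
  -- the order of `v ^ (q ^ 2) - v`
  have hr0 := hR.rel 0
  have hr1 := hR.rel 1
  rw [hX1v] at hr1
  simp only [one_pow, one_mul, mul_pow] at hr0 hr1
  have heq : t * X 0 ^ q ^ 2 * (v ^ q ^ 2 - v) = -((v ^ q - v) * X 0 ^ q) +
      ((v ^ q ^ 4 - v) * X 0 ^ q ^ 4 - (v ^ q ^ 3 - v) * X 0 ^ q ^ 3) := by
    linear_combination v * hr0 - hr1
  have hgv : ∀ n : ℕ, 1 ≤ n → P.Ge (v ^ n - v) 0 := by
    intro n hn
    refine P.ge_sub ?_ (Or.inr (by rw [hov]))
    have h1 := hgp v 0 n le_rfl hn (Or.inr (by rw [hov]))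
    exact P.ge_mono h1 (by rw [mul_zero])
  have hq1n : ∀ n : ℕ, 1 ≤ q ^ n := fun n => Nat.one_le_pow _ _ (by omega)
  have hXq : ∀ n : ℕ, P.Ge (X 0 ^ n) (n * o) := by
    intro n
    right
    rw [P.ord_pow hX0, ho]
  have hordq : P.ord (X 0 ^ q) = q * o := by rw [P.ord_pow hX0, ho]
  have hlead : -((v ^ q - v) * X 0 ^ q) ≠ 0 := neg_ne_zero.2 (mul_ne_zero hA.1 (pow_ne_zero _ hX0))
  have hleado : P.ord (-((v ^ q - v) * X 0 ^ q)) = q * o := by
    rw [P.ord_neg, P.ord_mul _ _ hA.1 (pow_ne_zero _ hX0), hA.2, hordq, zero_add]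
  have hbig : ∀ n : ℕ, 2 ≤ n → (q : ℤ) * o + 1 ≤ 0 + ((q ^ n : ℕ) : ℤ) * o := by
    intro n hn
    have h1 : q ^ 2 ≤ q ^ n := Nat.pow_le_pow_right (by omega) hn
    have h2 : ((q : ℤ)) ^ 2 ≤ ((q ^ n : ℕ) : ℤ) := by exact_mod_cast h1
    have h3 : (q : ℤ) + 1 ≤ (q : ℤ) ^ 2 := by nlinarith
    nlinarith
  have hrest : P.Ge ((v ^ q ^ 4 - v) * X 0 ^ q ^ 4 - (v ^ q ^ 3 - v) * X 0 ^ q ^ 3)
      (P.ord (-((v ^ q - v) * X 0 ^ q)) + 1) := by
    rw [hleado]
    exact P.ge_sub (P.ge_mono (P.ge_mul (hgv _ (hq1n 4)) (hXq _)) (hbig 4 (by norm_num)))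
      (P.ge_mono (P.ge_mul (hgv _ (hq1n 3)) (hXq _)) (hbig 3 (by norm_num)))
  obtain ⟨hne, hord⟩ := P.ord_add_of_lt hlead hrest
  rw [← heq] at hne hord
  have hB0 : v ^ q ^ 2 - v ≠ 0 := right_ne_zero_of_mul hne
  have hB : P.ord (v ^ q ^ 2 - v) = ((q : ℤ) - 1) * o := by
    rw [P.ord_mul _ _ (mul_ne_zero ht0 (pow_ne_zero _ hX0)) hB0,
      P.ord_mul _ _ ht0 (pow_ne_zero _ hX0), P.ord_pow hX0, ← ho, hleado] at hord
    push_cast at hord
    linear_combination hord - hot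
  have hBpos : 0 < ((q : ℤ) - 1) * o := mul_pos (by omega) (by omega)
  have hμ2 : μ ^ q ^ 2 = μ := by
    by_contra hc
    have h1 := (hcon 2 hc).2
    omega
  have hBw : v ^ q ^ 2 - v = -w + w ^ q ^ 2 := by
    rw [hfrob 2, hμ2, sub_self, map_zero]
    ring
  have hw0 : w ≠ 0 := by
    intro h
    apply hB0
    rw [hBw, h, neg_zero, zero_pow (by have := hq1n 2; omega), add_zero]
  have hw1 : 1 ≤ P.ord w := (P.ge_iff hw0 _).1 hμ
  have how : P.ord w = ((q : ℤ) - 1) * o := by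
    have h1 : P.Ge (w ^ q ^ 2) (P.ord (-w) + 1) := by
      right
      rw [P.ord_neg, P.ord_pow hw0]
      have h2 : 4 ≤ q ^ 2 := by nlinarith
      have h3 : (4 : ℤ) ≤ ((q ^ 2 : ℕ) : ℤ) := by exact_mod_cast h2
      nlinarith
    have h2 := (P.ord_add_of_lt (neg_ne_zero.2 hw0) h1).2
    rw [← hBw, hB, P.ord_neg] at h2
    exact h2.symm
  -- the element
  have hoD : P.ord D = ((q : ℤ) + 1) * o := by
    have e1 : D = X 0 ^ (q + 1) * (v ^ q - v) := by
      rw [hZ.d, hX1v, mul_pow, pow_succ]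
      ring
    rw [e1, P.ord_mul _ _ (pow_ne_zero _ hX0) hA.1, P.ord_pow hX0, hA.2, ← ho]
    push_cast
    ring
  obtain ⟨Q, hQ⟩ : ∃ Q, Q = cst k F L (a 0) * X 1 ^ 2 - cst k F L (a 1) * (X 0 * X 1) +
    cst k F L (a 2) * X 0 ^ 2 := ⟨_, rfl⟩
  have hcq : ∀ c : F, cst k F L c ^ q = cst k F L c := by
    intro c
    rw [← map_pow, ← map_pow, hFq]
  have hQq : Q ^ q = cst k F L (a 0) * X 1 ^ (2 * q) - cst k F L (a 1) * (X 0 ^ q * X 1 ^ q) +
      cst k F L (a 2) * X 0 ^ (2 * q) := by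
    have e1 : ∀ x y : L, (x + y) ^ q = x ^ q + y ^ q := by
      intro x y
      rw [hq, add_pow_char_pow]
    have e2 : ∀ x y : L, (x - y) ^ q = x ^ q - y ^ q := by
      intro x y
      rw [hq, sub_pow_char_pow]
    rw [hQ, e1, e2]
    simp only [mul_pow, hcq, ← pow_mul]
  have hS : ∑ i, cst k F L (a i) * (Z i ^ q - Z i) = Q ^ q / D ^ (q + 1) := by
    rw [Fin.sum_univ_three, hz0, hz1, hz2, hQq]
    ring
  obtain ⟨g, hg⟩ : ∃ g, g = cst k F L (a 0) * v ^ 2 - cst k F L (a 1) * v + cst k F L (a 2) :=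
    ⟨_, rfl⟩
  have hQg : Q = X 0 ^ 2 * g := by
    rw [hQ, hg, hX1v]
    ring
  obtain ⟨γ, hγ⟩ : ∃ γ : k, γ = algebraMap F k (a 0) * μ ^ 2 - algebraMap F k (a 1) * μ +
    algebraMap F k (a 2) := ⟨_, rfl⟩
  have hgγ : g = algebraMap k L γ + w * (cst k F L (a 0) * w +
      algebraMap k L (2 * algebraMap F k (a 0) * μ - algebraMap F k (a 1))) := by
    rw [hg, hγ, hvw]
    simp only [cst, map_add, map_sub, map_mul, map_pow, map_ofNat]
    ring
  have key : ∀ n : ℤ, g ≠ 0 → P.ord g = n →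
      ∑ i, cst k F L (a i) * (Z i ^ q - Z i) ≠ 0 ∧
      P.ord (∑ i, cst k F L (a i) * (Z i ^ q - Z i)) =
        q * (2 * o + n) - ((q : ℤ) + 1) * (((q : ℤ) + 1) * o) := by
    intro n hg0 hgn
    have hQ0' : Q ≠ 0 := by rw [hQg]; exact mul_ne_zero (pow_ne_zero _ hX0) hg0
    have hoQ : P.ord Q = 2 * o + n := by
      rw [hQg, P.ord_mul _ _ (pow_ne_zero _ hX0) hg0, P.ord_pow hX0, hgn, ← ho]
      push_cast
      ring
    rw [hS]
    refine ⟨div_ne_zero (pow_ne_zero _ hQ0') (pow_ne_zero _ hD0), ?_⟩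
    rw [P.ord_div (pow_ne_zero _ hQ0') (pow_ne_zero _ hD0), P.ord_pow hQ0', P.ord_pow hD0,
      hoQ, hoD]
    push_cast
    ring
  by_cases hγ0 : γ = 0
  · -- `μ` is a root
    have h1 : algebraMap F k (a 0) * (μ ^ q) ^ 2 - algebraMap F k (a 1) * μ ^ q +
        algebraMap F k (a 2) = 0 := by
      have e1 : ∀ x y : k, (x + y) ^ q = x ^ q + y ^ q := by
        intro x y
        rw [hq, add_pow_char_pow]
      have e2 : ∀ x y : k, (x - y) ^ q = x ^ q - y ^ q := by
        intro x y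
        rw [hq, sub_pow_char_pow]
      have e3 : ∀ c : F, algebraMap F k c ^ q = algebraMap F k c := by
        intro c
        rw [← map_pow, hFq]
      have h2 : γ ^ q = 0 := by rw [hγ0, zero_pow (by omega)]
      rw [hγ, e1, e2, mul_pow, mul_pow, e3, e3, e3, ← pow_mul, mul_comm 2 q, pow_mul] at h2
      exact h2
    have h2 : algebraMap F k (a 0) * μ ^ 2 - algebraMap F k (a 1) * μ +
        algebraMap F k (a 2) = 0 := by rw [← hγ, hγ0]
    have h3 : algebraMap F k (a 1) = algebraMap F k (a 0) * (μ + μ ^ q) := by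
      have h4 : (μ - μ ^ q) * (algebraMap F k (a 0) * (μ + μ ^ q) - algebraMap F k (a 1)) = 0 := by
        linear_combination h2 - h1
      rcases mul_eq_zero.1 h4 with h5 | h5
      · exact absurd (sub_eq_zero.1 h5).symm hμq
      · exact (sub_eq_zero.1 h5).symm
    have ha0 : a 0 ≠ 0 := by
      intro h0
      rw [h0, map_zero, zero_mul] at h3
      rw [h0, h3, map_zero, zero_mul, zero_mul, sub_zero, zero_add] at h2
      apply ha
      have e1 : a 1 = 0 := (map_eq_zero (algebraMap F k)).1 h3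
      have e2 : a 2 = 0 := (map_eq_zero (algebraMap F k)).1 h2
      funext i
      fin_cases i
      · exact h0
      · exact e1
      · exact e2
    have hδ : (2 * algebraMap F k (a 0) * μ - algebraMap F k (a 1) : k) ≠ 0 := by
      rw [h3]
      have e1 : 2 * algebraMap F k (a 0) * μ - algebraMap F k (a 0) * (μ + μ ^ q) =
          algebraMap F k (a 0) * (μ - μ ^ q) := by ring
      rw [e1]
      exact mul_ne_zero (by intro h; exact ha0 ((map_eq_zero (algebraMap F k)).1 h))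
        (sub_ne_zero.2 (Ne.symm hμq))
    have h4 : algebraMap k L (2 * algebraMap F k (a 0) * μ - algebraMap F k (a 1)) ≠ 0 := by
      intro h
      exact hδ ((map_eq_zero _).1 h)
    have h5 := P.ord_const _ hδ
    have h6 := P.ord_add_of_lt h4 (y := cst k F L (a 0) * w) (by
      rw [h5]
      exact P.ge_mono (P.ge_mul (P.ge_const (algebraMap F k (a 0))) hμ) (by norm_num))
    have h7 : g = w * (algebraMap k L (2 * algebraMap F k (a 0) * μ - algebraMap F k (a 1)) +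
        cst k F L (a 0) * w) := by
      rw [hgγ, hγ0, map_zero]
      ring
    have h8 := key (((q : ℤ) - 1) * o) (by rw [h7]; exact mul_ne_zero hw0 h6.1)
      (by rw [h7, P.ord_mul _ _ hw0 h6.1, h6.2, h5, how, add_zero])
    refine ⟨h8.1, Or.inr ⟨?_, ?_⟩⟩
    · intro hc
      rw [hc] at h2
      simp only [Matrix.cons_val_zero, Matrix.cons_val_one, Matrix.cons_val, map_one, map_zero,
        one_mul, zero_mul, sub_zero, add_zero] at h2
      have h9 : μ = 0 := pow_eq_zero_iff (by norm_num) |>.1 h2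
      exact hμF 0 (by rw [map_zero, h9])
    · rw [h8.2]
      linear_combination (-((q : ℤ) + 1)) * hot
  · have h1 : algebraMap k L γ ≠ 0 := by
      intro h
      exact hγ0 ((map_eq_zero _).1 h)
    have h2 := P.ord_const _ hγ0
    have h3 := P.ord_add_of_lt h1 (y := w * (cst k F L (a 0) * w +
      algebraMap k L (2 * algebraMap F k (a 0) * μ - algebraMap F k (a 1)))) (by
      rw [h2]
      have h4 : P.Ge (cst k F L (a 0) * w +
          algebraMap k L (2 * algebraMap F k (a 0) * μ - algebraMap F k (a 1))) 0 :=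
        P.ge_add (P.ge_mono (P.ge_mul (P.ge_const (algebraMap F k (a 0))) hμ) (by norm_num))
          (P.ge_const _)
      exact P.ge_mono (P.ge_mul hμ h4) (by norm_num))
    rw [← hgγ] at h3
    have h8 := key 0 h3.1 (by rw [h3.2, h2])
    refine ⟨h8.1, Or.inl ?_⟩
    rw [h8.2]
    linear_combination (-((q : ℤ) ^ 2 + 1)) * hot

end Pool.CND
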